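import Mathlib

namespace Pool.Agent.Results.MP_f804be_nt.RMinimalBasesExist

/-- `hA`: the set of all sums of `h` elements of `A`, repetitions allowed. -/
def hFold (h : ℕ) (A : Set ℕ) : Set ℕ :=
  {n | ∃ s : Multiset ℕ, s.card = h ∧ (∀ a ∈ s, a ∈ A) ∧ s.sum = n}

/-- `A` is an asymptotic basis of order `h`: only finitely many nonnegative integers are
not sums of `h` elements of `A`. -/
def IsAsymptoticBasis (h : ℕ) (A : Set ℕ) : Prop := (hFold h A)ᶜ.Finite

/-- `A` is an `r`-minimal asymptotic basis of order `h`: for every subset `S` of `A`, the set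
`A \ S` is an asymptotic basis of order `h` if and only if `S` has fewer than `r` elements. -/
def IsRMinimal (h r : ℕ) (A : Set ℕ) : Prop :=
  ∀ S : Set ℕ, S ⊆ A → (IsAsymptoticBasis h (A \ S) ↔ S.encard < r)

theorem hFold_mono_below {h n : ℕ} {A B : Set ℕ} (hAB : ∀ x ≤ n, x ∈ A → x ∈ B)
    (hn : n ∈ hFold h A) : n ∈ hFold h B := by
  obtain ⟨s, h1, h2, h3⟩ := hn
  refine ⟨s, h1, fun a ha => hAB a ?_ (h2 a ha), h3⟩
  rw [← h3]
  exact Multiset.le_sum_of_mem ha

theorem hFold_mono {h n : ℕ} {A B : Set ℕ} (hAB : A ⊆ B) (hn : n ∈ hFold h A) :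
    n ∈ hFold h B := hFold_mono_below (fun _ _ hx => hAB hx) hn

/-- Robust representation of `m`: deleting fewer than `r` elements does no harm. -/
def Rob (k r : ℕ) (C : Set ℕ) (m : ℕ) : Prop :=
  ∀ S : Finset ℕ, S.card < r → m ∈ hFold (k + 1) (C \ ↑S)

theorem rob_of_window {k r m u0 : ℕ} {C : Set ℕ} (hk : 0 < k)
    (hw : ∀ u, u0 ≤ u → u < u0 + 2 * r → u ∈ C ∧ k * u ≤ m ∧ m - k * u ∈ C) :
    Rob k r C m := by
  intro S hS
  have hcard : (S ∪ S.image (fun s => (m - s) / k)).card < (Finset.Ico u0 (u0 + 2 * r)).card := by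
    rw [Nat.card_Ico]
    have h1 := Finset.card_union_le S (S.image (fun s => (m - s) / k))
    have h2 : (S.image (fun s => (m - s) / k)).card ≤ S.card := Finset.card_image_le
    omega
  obtain ⟨u, hu1, hu2⟩ := Finset.exists_mem_notMem_of_card_lt_card hcard
  rw [Finset.mem_Ico] at hu1
  obtain ⟨c1, c2, c3⟩ := hw u hu1.1 hu1.2
  rw [Finset.mem_union, not_or] at hu2
  have hv : m - k * u ∉ S := by
    intro hmem
    apply hu2.2
    rw [Finset.mem_image]
    refine ⟨m - k * u, hmem, ?_⟩
    have : m - (m - k * u) = k * u := by omega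
    rw [this]
    exact Nat.mul_div_cancel_left u hk
  refine ⟨(m - k * u) ::ₘ Multiset.replicate k u, by simp, ?_, ?_⟩
  · intro a ha
    rw [Multiset.mem_cons] at ha
    rcases ha with rfl | ha
    · exact ⟨c3, by simpa using hv⟩
    · rw [Multiset.eq_of_mem_replicate ha]
      exact ⟨c1, by simpa using hu2.1⟩
  · rw [Multiset.sum_cons, Multiset.sum_replicate, smul_eq_mul]
    omega

/-- The states of the construction. -/
structure St (k r : ℕ) (C : Set ℕ) : Prop where
  init : ∀ u, u < 2 * r → u ∈ C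
  tail : ∃ L, ∀ n, L < n → n ∈ C
  rob : ∀ m, 2 * r * k ≤ m → Rob k r C m

/-- `C` and `C'` agree up to `B`. -/
def Agree (B : ℕ) (C C' : Set ℕ) : Prop := ∀ x ≤ B, (x ∈ C' ↔ x ∈ C)

theorem Agree.trans {B : ℕ} {C C' C'' : Set ℕ} (h1 : Agree B C C') (h2 : Agree B C' C'') :
    Agree B C C'' := fun x hx => (h2 x hx).trans (h1 x hx)

theorem Agree.mono {B B' : ℕ} {C C' : Set ℕ} (hB : B ≤ B') (h1 : Agree B' C C') :
    Agree B C C' := fun x hx => h1 x (hx.trans hB)

theorem Agree.notMem {B : ℕ} {C C' : Set ℕ} (h1 : Agree B C C') {j n : ℕ} (hn : n ≤ B)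
    {D : Set ℕ} (h : n ∉ hFold j (C \ D)) : n ∉ hFold j (C' \ D) := by
  intro h2
  apply h
  refine hFold_mono_below ?_ h2
  intro x hx hx2
  exact ⟨(h1 x (hx.trans hn)).1 hx2.1, hx2.2⟩

theorem Agree.notMem' {B : ℕ} {C C' : Set ℕ} (h1 : Agree B C C') {j n : ℕ} (hn : n ≤ B)
    (h : n ∉ hFold j C) : n ∉ hFold j C' := by
  intro h2
  apply h
  refine hFold_mono_below ?_ h2
  intro x hx hx2
  exact (h1 x (hx.trans hn)).1 hx2

theorem cut_rob {k r L X Y : ℕ} {C C' : Set ℕ} (hk : 0 < k) (hC : St k r C)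
    (hL : ∀ n, L < n → n ∈ C) (hX : (k + 1) * (L + 2 * r) + 1 ≤ X) (h1 : Agree X C C')
    (hY : ∀ n, Y ≤ n → n ∈ C') {m : ℕ} (hm : 2 * r * k ≤ m)
    (hm2 : m + 2 * r * k ≤ (k + 1) * X ∨ Y + 2 * r * k ≤ m) : Rob k r C' m := by
  rcases le_or_gt m X with hmX | hmX
  · intro S hS
    refine hFold_mono_below ?_ (hC.rob m hm S hS)
    intro x hx hx2
    exact ⟨(h1 x (hx.trans hmX)).2 hx2.1, hx2.2⟩
  · rcases hm2 with hm2 | hm2
    · -- window in `(L, X]`
      have hmem : ∀ n, L < n → n ≤ X → n ∈ C' := fun n hn hnX => (h1 n hnX).2 (hL n hn)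
      -- u0
      obtain ⟨q, hq1, hq2⟩ : ∃ q, m - X ≤ k * q ∧ k * q < m - X + k := by
        refine ⟨(m - X + (k - 1)) / k, ?_, ?_⟩
        · have := Nat.div_add_mod (m - X + (k - 1)) k
          have := Nat.mod_lt (m - X + (k - 1)) hk
          omega
        · have := Nat.div_mul_le_self (m - X + (k - 1)) k
          rw [mul_comm] at this
          omega
      refine rob_of_window (u0 := max (L + 1) q) hk ?_
      intro u hu1 hu2
      have e1 : (k + 1) * X = k * X + X := by ring
      have e2 : (k + 1) * (L + 2 * r) = k * L + k * (2 * r) + L + 2 * r := by ring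
      have e3 : 2 * r * k = k * (2 * r) := by ring
      rw [e1, e3] at hm2
      rw [e2] at hX
      have hk1 : k * q ≤ k * u := Nat.mul_le_mul_left k ((le_max_right _ _).trans hu1)
      have hu3 : L < u := lt_of_lt_of_le (Nat.lt_succ_self L) ((le_max_left _ _).trans hu1)
      have hku : k * u + L < m ∧ u ≤ X := by
        rcases le_total (L + 1) q with hcase | hcase
        · rw [max_eq_right hcase] at hu1 hu2
          have h2 : k * u + k ≤ k * q + k * (2 * r) := by
            have : u + 1 ≤ q + 2 * r := hu2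
            calc k * u + k = k * (u + 1) := by ring
              _ ≤ k * (q + 2 * r) := Nat.mul_le_mul_left k this
              _ = k * q + k * (2 * r) := by ring
          refine ⟨by omega, ?_⟩
          have h3 : k * u ≤ k * X := by omega
          exact Nat.le_of_mul_le_mul_left h3 hk
        · rw [max_eq_left hcase] at hu1 hu2
          have h2 : k * u + k ≤ k * L + k + k * (2 * r) := by
            have : u + 1 ≤ L + 1 + 2 * r := hu2
            calc k * u + k = k * (u + 1) := by ring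
              _ ≤ k * (L + 1 + 2 * r) := Nat.mul_le_mul_left k this
              _ = k * L + k + k * (2 * r) := by ring
          exact ⟨by omega, by omega⟩
      exact ⟨hmem u hu3 hku.2, by omega, hmem _ (by omega) (by omega)⟩
    · refine rob_of_window (u0 := 0) hk ?_
      intro u _ hu
      have hur : u < 2 * r := by omega
      have h2 : k * u ≤ 2 * r * k := by
        calc k * u ≤ k * (2 * r) := Nat.mul_le_mul_left k hur.le
          _ = 2 * r * k := by ring
      refine ⟨(h1 u ?_).2 (hC.init u hur), by omega, hY _ (by omega)⟩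
      have : 2 * r ≤ (k + 1) * (L + 2 * r) := by nlinarith
      omega

theorem st_of_cut {k r L X Y : ℕ} {C C' : Set ℕ} (hk : 0 < k) (hC : St k r C)
    (hL : ∀ n, L < n → n ∈ C) (hX : (k + 1) * (L + 2 * r) + 1 ≤ X) (h1 : Agree X C C')
    (hY : ∀ n, Y ≤ n → n ∈ C')
    (hz : ∀ m, (k + 1) * X < m + 2 * r * k → m < Y + 2 * r * k → Rob k r C' m) :
    St k r C' := by
  refine ⟨?_, ⟨Y, fun n hn => hY n hn.le⟩, ?_⟩
  · intro u hu
    refine (h1 u ?_).2 (hC.init u hu)
    have : 2 * r ≤ (k + 1) * (L + 2 * r) := by nlinarith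
    omega
  · intro m hm
    rcases lt_or_ge ((k + 1) * X) (m + 2 * r * k) with h2 | h2
    · rcases lt_or_ge m (Y + 2 * r * k) with h3 | h3
      · exact hz m h2 h3
      · exact cut_rob hk hC hL hX h1 hY hm (Or.inr h3)
    · exact cut_rob hk hC hL hX h1 hY hm (Or.inl h2)

theorem stepZ {k r : ℕ} (hk : 0 < k) {C : Set ℕ} (hC : St k r C) (B a x j : ℕ) (hj : j + 1 ≤ k)
    (hx : x ∉ hFold j (C \ {a})) :
    ∃ C', St k r C' ∧ Agree B C C' ∧ ∃ Z ∈ C', B < Z ∧ Z + x ∉ hFold (j + 1) (C' \ {a}) := by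
  obtain ⟨L, hL⟩ := hC.tail
  obtain ⟨X, hX⟩ : ∃ X, X = (k + 1) * (L + 2 * r) + 1 + B + x + 4 * r * k + 2 := ⟨_, rfl⟩
  obtain ⟨Z, hZ⟩ : ∃ Z, Z = k * X + 1 := ⟨_, rfl⟩
  have hXZ : X < Z := by
    have : X ≤ k * X := Nat.le_mul_of_pos_left X hk
    omega
  let C' : Set ℕ := {n | (n ≤ X ∧ n ∈ C) ∨ n = Z ∨ Z + x + 1 ≤ n}
  have hag : Agree X C C' := by
    intro n hn
    constructor
    · rintro (h | h | h)
      · exact h.2
      · omega
      · omega
    · intro h; exact Or.inl ⟨hn, h⟩
  refine ⟨C', ?_, hag.mono (by omega), Z, Or.inr (Or.inl rfl), by omega, ?_⟩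
  · refine st_of_cut (Y := Z + x + 1) hk hC hL (by omega) hag (fun n hn => Or.inr (Or.inr hn)) ?_
    intro m h1 h2
    exfalso
    have e1 : (k + 1) * X = k * X + X := by ring
    have e2 : 4 * r * k = 2 * (2 * r * k) := by ring
    omega
  · rintro ⟨s, s1, s2, s3⟩
    have hle : ∀ u ∈ s, u ≤ Z + x := by
      intro u hu
      rw [← s3]; exact Multiset.le_sum_of_mem hu
    by_cases hZs : Z ∈ s
    · obtain ⟨t, rfl⟩ := Multiset.exists_cons_of_mem hZs
      rw [Multiset.sum_cons] at s3
      have s4 : t.sum = x := by omega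
      apply hx
      refine ⟨t, by simpa using s1, ?_, s4⟩
      intro u hu
      have hux : u ≤ x := by rw [← s4]; exact Multiset.le_sum_of_mem hu
      have := s2 u (Multiset.mem_cons_of_mem hu)
      exact ⟨(hag u (by omega)).1 this.1, this.2⟩
    · have hX' : ∀ u ∈ s, u ≤ X := by
        intro u hu
        have h4 := hle u hu
        rcases (s2 u hu).1 with h | h | h
        · exact h.1
        · exact absurd (h ▸ hu) hZs
        · omega
      have h5 : s.sum ≤ s.card • X := Multiset.sum_le_card_nsmul s X hX'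
      rw [s1, smul_eq_mul, s3] at h5
      have h6 : (j + 1) * X ≤ k * X := Nat.mul_le_mul_right X hj
      omega

theorem iterZ {k r : ℕ} (hk : 0 < k) (j : ℕ) (hj : j + 1 ≤ k) {C : Set ℕ} (hC : St k r C)
    (B a : ℕ) :
    ∃ C', St k r C' ∧ Agree B C C' ∧ ∃ U : Multiset ℕ, U.card = j ∧
      (∀ u ∈ U, u ∈ C' ∧ B < u) ∧ U.sum + a ∉ hFold (j + 1) (C' \ {a}) := by
  induction j with
  | zero =>
    refine ⟨C, hC, fun x _ => Iff.rfl, 0, rfl, by simp, ?_⟩
    rintro ⟨s, s1, s2, s3⟩
    obtain ⟨b, rfl⟩ := Multiset.card_eq_one.1 s1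
    have := s2 b (Multiset.mem_singleton_self b)
    simp at s3
    exact this.2 s3
  | succ j ih =>
    obtain ⟨C1, c1, c2, U, u1, u2, u3⟩ := ih (by omega)
    obtain ⟨C2, d1, d2, Z, z1, z2, z3⟩ :=
      stepZ hk c1 (B + U.sum) a (U.sum + a) (j + 1) hj u3
    refine ⟨C2, d1, c2.trans (d2.mono (by omega)), Z ::ₘ U, by simp [u1], ?_, ?_⟩
    · intro u hu
      rcases Multiset.mem_cons.1 hu with rfl | hu
      · exact ⟨z1, by omega⟩
      · have hle := Multiset.le_sum_of_mem hu
        exact ⟨(d2 u (by omega)).2 (u2 u hu).1, (u2 u hu).2⟩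
    · have e : Z + U.sum + a = Z + (U.sum + a) := by ring
      rw [Multiset.sum_cons, e]
      exact z3

theorem forS {k r : ℕ} (hk : 0 < k) (S : Finset ℕ) {C : Set ℕ} (hC : St k r C) (B : ℕ) :
    ∃ C', St k r C' ∧ Agree B C C' ∧ ∃ U : ℕ → Multiset ℕ,
      (∀ a ∈ S, (U a).card + 1 = k ∧ (∀ u ∈ U a, u ∈ C' ∧ B < u) ∧
        (U a).sum + a ∉ hFold k (C' \ {a})) ∧
      (∀ a ∈ S, ∀ b ∈ S, a ≠ b → ∀ u ∈ U a, u ∉ U b) := by
  induction S using Finset.induction_on with
  | empty => exact ⟨C, hC, fun x _ => Iff.rfl, fun _ => 0, by simp, by simp⟩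
  | insert a S ha ih =>
    obtain ⟨C1, c1, c2, U, u1, u2⟩ := ih
    obtain ⟨B1, hB1⟩ : ∃ B1, B1 = B + ∑ b ∈ S, ((U b).sum + b) := ⟨_, rfl⟩
    have hBle : ∀ b ∈ S, (U b).sum + b ≤ B1 := by
      intro b hb
      have := Finset.single_le_sum (f := fun b => (U b).sum + b) (fun _ _ => Nat.zero_le _) hb
      omega
    obtain ⟨C2, d1, d2, V, v1, v2, v3⟩ := iterZ hk (k - 1) (by omega) c1 B1 a
    have hk1 : k - 1 + 1 = k := by omega
    rw [hk1] at v3
    refine ⟨C2, d1, c2.trans (d2.mono (by omega)), Function.update U a V, ?_, ?_⟩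
    · intro b hb
      rcases Finset.mem_insert.1 hb with hba | hb'
      · subst hba
        rw [Function.update_self]
        exact ⟨by omega, fun u hu => ⟨(v2 u hu).1, by have := (v2 u hu).2; omega⟩, v3⟩
      · have hne : b ≠ a := fun h => ha (h ▸ hb')
        rw [Function.update_of_ne hne]
        obtain ⟨w1, w2, w3⟩ := u1 b hb'
        refine ⟨w1, ?_, d2.notMem (hBle b hb') w3⟩
        intro u hu
        have hle := Multiset.le_sum_of_mem hu
        have := hBle b hb'
        exact ⟨(d2 u (by omega)).2 (w2 u hu).1, (w2 u hu).2⟩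
    · intro b hb c hc hbc u hu
      rcases Finset.mem_insert.1 hb with hba | hb'
      · rcases Finset.mem_insert.1 hc with hca | hc'
        · exact absurd (hba.trans hca.symm) hbc
        · have hne : c ≠ a := fun h => ha (h ▸ hc')
          rw [hba, Function.update_self] at hu
          rw [Function.update_of_ne hne]
          intro hu2
          have h1 := (v2 u hu).2
          have h2 := Multiset.le_sum_of_mem hu2
          have h3 := hBle c hc'
          omega
      · have hne : b ≠ a := fun h => ha (h ▸ hb')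
        rw [Function.update_of_ne hne] at hu
        rcases Finset.mem_insert.1 hc with hca | hc'
        · rw [hca, Function.update_self]
          intro hu2
          have h1 := (v2 u hu2).2
          have h2 := Multiset.le_sum_of_mem hu
          have h3 := hBle b hb'
          omega
        · have hne' : c ≠ a := fun h => ha (h ▸ hc')
          rw [Function.update_of_ne hne']
          exact u2 b hb' c hc' hbc u hu

/-- `W` is isolated among `k`-fold sums. -/
def Iso (k J : ℕ) (C : Set ℕ) (W : ℕ) : Prop :=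
  ∀ g, g ≠ k * W → g ≤ k * W + J → k * W ≤ g + J → g ∉ hFold k C

theorem stepW {k r : ℕ} (hk : 0 < k) {C : Set ℕ} (hC : St k r C) (B J : ℕ) :
    ∃ C', St k r C' ∧ Agree B C C' ∧ ∃ W ∈ C', B < W ∧ Iso k J C' W := by
  obtain ⟨L, hL⟩ := hC.tail
  obtain ⟨X, hX⟩ : ∃ X, X = (k + 1) * (L + 2 * r) + 1 + B + (k + 1) * (J + 1) + 4 * r * k + 2 :=
    ⟨_, rfl⟩
  obtain ⟨W, hW⟩ : ∃ W, W = X + J + 1 := ⟨_, rfl⟩
  let C' : Set ℕ := {n | (n ≤ X ∧ n ∈ C) ∨ n = W ∨ k * W + J + 1 ≤ n}
  have hkW : W ≤ k * W := Nat.le_mul_of_pos_left W hk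
  have hag : Agree X C C' := by
    intro n hn
    constructor
    · rintro (h | h | h)
      · exact h.2
      · omega
      · omega
    · intro h; exact Or.inl ⟨hn, h⟩
  refine ⟨C', ?_, hag.mono (by omega), W, Or.inr (Or.inl rfl), by omega, ?_⟩
  · refine st_of_cut (Y := k * W + J + 1) hk hC hL (by omega) hag
      (fun n hn => Or.inr (Or.inr hn)) ?_
    intro m h1 h2
    exfalso
    have e1 : (k + 1) * X = k * X + X := by ring
    have e2 : 4 * r * k = 2 * (2 * r * k) := by ring
    have e3 : k * W = k * X + k * J + k := by rw [hW]; ring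
    have e4 : (k + 1) * (J + 1) = k * J + k + J + 1 := by ring
    omega
  · intro g g1 g2 g3
    rintro ⟨s, s1, s2, s3⟩
    have hle : ∀ u ∈ s, u ≤ g := by
      intro u hu
      rw [← s3]; exact Multiset.le_sum_of_mem hu
    have hmem : ∀ u ∈ s, u ≤ X ∨ u = W := by
      intro u hu
      have h4 := hle u hu
      rcases s2 u hu with h | h | h
      · exact Or.inl h.1
      · exact Or.inr h
      · omega
    by_cases hall : ∀ u ∈ s, u = W
    · have h5 := Multiset.eq_replicate_of_mem hall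
      rw [h5, Multiset.sum_replicate, s1, smul_eq_mul] at s3
      exact g1 s3.symm
    · push Not at hall
      obtain ⟨u, hu, huW⟩ := hall
      have huX : u ≤ X := (hmem u hu).resolve_right huW
      obtain ⟨t, rfl⟩ := Multiset.exists_cons_of_mem hu
      have ht : ∀ v ∈ t, v ≤ W := by
        intro v hv
        rcases hmem v (Multiset.mem_cons_of_mem hv) with h | h
        · omega
        · exact h.le
      have h5 : t.sum ≤ t.card • W := Multiset.sum_le_card_nsmul t W ht
      rw [Multiset.sum_cons] at s3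
      rw [Multiset.card_cons] at s1
      rw [smul_eq_mul] at h5
      have h6 : k * W = t.card * W + W := by rw [← s1]; ring
      omega

theorem forT {k r : ℕ} (hk : 0 < k) (J n : ℕ) {C : Set ℕ} (hC : St k r C) (B : ℕ) :
    ∃ C', St k r C' ∧ Agree B C C' ∧ ∃ T : Finset ℕ, T.card = n ∧
      ∀ W ∈ T, W ∈ C' ∧ B < W ∧ Iso k J C' W := by
  induction n with
  | zero => exact ⟨C, hC, fun x _ => Iff.rfl, ∅, by simp, by simp⟩
  | succ n ih =>
    obtain ⟨C1, c1, c2, T, t1, t2⟩ := ih
    obtain ⟨B1, hB1⟩ : ∃ B1, B1 = B + ∑ W ∈ T, (k * W + J + W) := ⟨_, rfl⟩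
    have hBle : ∀ W ∈ T, k * W + J + W ≤ B1 := by
      intro W hW
      have := Finset.single_le_sum (f := fun W => k * W + J + W) (fun _ _ => Nat.zero_le _) hW
      omega
    obtain ⟨C2, d1, d2, W, w1, w2, w3⟩ := stepW hk c1 B1 J
    have hWT : W ∉ T := by
      intro h
      have := hBle W h
      omega
    refine ⟨C2, d1, c2.trans (d2.mono (by omega)), insert W T, ?_, ?_⟩
    · rw [Finset.card_insert_of_notMem hWT, t1]
    · intro V hV
      rcases Finset.mem_insert.1 hV with rfl | hV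
      · exact ⟨w1, by omega, w3⟩
      · obtain ⟨x1, x2, x3⟩ := t2 V hV
        have h5 := hBle V hV
        refine ⟨(d2 V (by omega)).2 x1, x2, ?_⟩
        intro g g1 g2 g3
        exact d2.notMem' (by omega) (x3 g g1 g2 g3)

/-- Pigeonhole: few deletions miss one of many pairwise disjoint sets. -/
theorem exists_disjoint_of_card_lt {T S : Finset ℕ} (V : ℕ → Set ℕ)
    (hdis : ∀ a ∈ T, ∀ b ∈ T, a ≠ b → ∀ x ∈ V a, x ∉ V b) (hcard : S.card < T.card) :
    ∃ a ∈ T, ∀ x ∈ V a, x ∉ S := by
  by_contra hcon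
  push Not at hcon
  choose! f hf1 hf2 using hcon
  have hinj : Set.InjOn f T := by
    intro a ha b hb hab
    by_contra hne
    exact hdis a ha b hb hne (f a) (hf1 a ha) (hab ▸ hf1 b hb)
  have h1 : (T.image f).card = T.card := Finset.card_image_of_injOn hinj
  have h2 : T.image f ⊆ S := by
    intro x hx
    obtain ⟨a, ha, rfl⟩ := Finset.mem_image.1 hx
    exact hf2 a ha
  have := Finset.card_le_card h2
  omega

theorem critical {k r : ℕ} (hk : 0 < k) {C : Set ℕ} (hC : St k r C) (B : ℕ) (S : Finset ℕ)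
    (hS : S.card = r) (hSC : ∀ a ∈ S, a ∈ C) (U : ℕ → Multiset ℕ)
    (hU : ∀ a ∈ S, (U a).card + 1 = k ∧ (∀ u ∈ U a, u ∈ C ∧ u ∉ S) ∧
        (U a).sum + a ∉ hFold k (C \ {a}))
    (hU2 : ∀ a ∈ S, ∀ b ∈ S, a ≠ b → ∀ u ∈ U a, u ∉ U b)
    (T : Finset ℕ) (hT : T.card = r)
    (hT2 : ∀ W ∈ T, W ∈ C ∧ Iso k (2 * r * k) C W) :
    ∃ C', St k r C' ∧ Agree B C C' ∧ ∃ N, B < N ∧ N ∉ hFold (k + 1) (C' \ ↑S) := by
  obtain ⟨L, hL⟩ := hC.tail
  obtain ⟨M, hM⟩ : ∃ M, M = (∑ a ∈ S, ((U a).sum + a)) + ∑ W ∈ T, (k * W + 2 * r * k + W) :=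
    ⟨_, rfl⟩
  have hMS : ∀ a ∈ S, (U a).sum + a ≤ M := by
    intro a ha
    have := Finset.single_le_sum (f := fun a => (U a).sum + a) (fun _ _ => Nat.zero_le _) ha
    omega
  have hMT : ∀ W ∈ T, k * W + 2 * r * k + W ≤ M := by
    intro W hW
    have := Finset.single_le_sum (f := fun W => k * W + 2 * r * k + W)
      (fun _ _ => Nat.zero_le _) hW
    omega
  obtain ⟨X, hX⟩ : ∃ X, X = (k + 1) * (L + 2 * r) + 1 + B + M + 1 := ⟨_, rfl⟩
  obtain ⟨N, hN⟩ : ∃ N, N = (k + 1) * X + 1 := ⟨_, rfl⟩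
  have hN2 : N = k * X + X + 1 := by rw [hN]; ring
  have hkX : X ≤ k * X := Nat.le_mul_of_pos_left X hk
  -- the set of special differences
  let Gs : Set ℕ := {g | (∃ a ∈ S, g = (U a).sum + a) ∨
    (∃ W ∈ T, g ≠ k * W ∧ g ≤ k * W + 2 * r * k ∧ k * W ≤ g + 2 * r * k)}
  have hGs : ∀ g ∈ Gs, g ≤ M := by
    rintro g (⟨a, ha, rfl⟩ | ⟨W, hW, g1, g2, g3⟩)
    · exact hMS a ha
    · have := hMT W hW; omega
  let C' : Set ℕ := {n | (n ≤ X ∧ n ∈ C) ∨ (n ≤ N ∧ N - n ∈ Gs) ∨ N + 1 ≤ n}
  have hag : Agree X C C' := by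
    intro n hn
    constructor
    · rintro (h | h | h)
      · exact h.2
      · have := hGs _ h.2
        omega
      · omega
    · intro h; exact Or.inl ⟨hn, h⟩
  refine ⟨C', ?_, hag.mono (by omega), N, by omega, ?_⟩
  · refine st_of_cut (Y := N + 1) hk hC hL (by omega) hag (fun n hn => Or.inr (Or.inr hn)) ?_
    intro m h1 h2
    rcases eq_or_ne m N with rfl | hmN
    · -- the critical number itself
      intro D hD
      have hxinj : ∀ a ∈ S, ∀ b ∈ S, a ≠ b → (U a).sum + a ≠ (U b).sum + b := by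
        intro a ha b hb hab heq
        obtain ⟨a1, a2, a3⟩ := hU a ha
        obtain ⟨b1, b2, b3⟩ := hU b hb
        apply a3
        rw [heq]
        refine ⟨b ::ₘ U b, by simp [b1], ?_, by simp [add_comm]⟩
        intro u hu
        rcases Multiset.mem_cons.1 hu with rfl | hu
        · exact ⟨hSC _ hb, fun h => hab (Set.mem_singleton_iff.1 h).symm⟩
        · refine ⟨(b2 u hu).1, ?_⟩
          intro h
          rw [Set.mem_singleton_iff] at h
          exact (b2 u hu).2 (h ▸ ha)
      obtain ⟨a, ha, hdis⟩ := exists_disjoint_of_card_lt (T := S) (S := D)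
        (fun a => {x | x = a ∨ x ∈ U a ∨ x = m - ((U a).sum + a)}) (by
          intro a ha b hb hab x hx hx2
          simp only [Set.mem_ofPred_eq] at hx hx2
          have ea := hMS a ha
          have eb := hMS b hb
          have hbig : ∀ c ∈ S, ∀ u ∈ U c, u ≤ M := by
            intro c hc u hu
            have := Multiset.le_sum_of_mem hu
            have := hMS c hc
            omega
          rcases hx with rfl | hx | hx
          · rcases hx2 with h | h | h
            · exact hab h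
            · exact ((hU b hb).2.1 x h).2 ha
            · omega
          · rcases hx2 with rfl | h | h
            · exact ((hU a ha).2.1 x hx).2 hb
            · exact hU2 a ha b hb hab x hx h
            · have := hbig a ha x hx; omega
          · rcases hx2 with rfl | h | h
            · omega
            · have := hbig b hb x h; omega
            · have := hxinj a ha b hb hab
              omega) (by omega)
      obtain ⟨a1, a2, a3⟩ := hU a ha
      have ea := hMS a ha
      refine ⟨(m - ((U a).sum + a)) ::ₘ a ::ₘ U a, by simp [a1], ?_, ?_⟩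
      · intro u hu
        rcases Multiset.mem_cons.1 hu with rfl | hu
        · refine ⟨Or.inr (Or.inl ⟨by omega, Or.inl ⟨a, ha, by omega⟩⟩), ?_⟩
          exact fun h => hdis _ (Or.inr (Or.inr rfl)) (by simpa using h)
        · rcases Multiset.mem_cons.1 hu with rfl | hu
          · refine ⟨(hag u (by omega)).2 (hSC u ha), ?_⟩
            exact fun h => hdis _ (Or.inl rfl) (by simpa using h)
          · have := Multiset.le_sum_of_mem hu
            refine ⟨(hag u (by omega)).2 (a2 u hu).1, ?_⟩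
            exact fun h => hdis _ (Or.inr (Or.inl hu)) (by simpa using h)
      · simp only [Multiset.sum_cons]
        omega
    · -- neighbours of the critical number
      intro D hD
      obtain ⟨W, hW, hdis⟩ := exists_disjoint_of_card_lt (T := T) (S := D)
        (fun W => {x | x = W ∨ x = m - k * W}) (by
          intro a ha b hb hab x hx hx2
          simp only [Set.mem_ofPred_eq] at hx hx2
          have ea := hMT a ha
          have eb := hMT b hb
          have hne : k * a ≠ k * b := fun h => hab (Nat.eq_of_mul_eq_mul_left hk h)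
          rcases hx with rfl | hx
          · rcases hx2 with h | h
            · exact hab h
            · omega
          · rcases hx2 with rfl | h
            · omega
            · omega) (by omega)
      have eW := hMT W hW
      refine ⟨(m - k * W) ::ₘ Multiset.replicate k W, by simp, ?_, ?_⟩
      · intro u hu
        rcases Multiset.mem_cons.1 hu with rfl | hu
        · refine ⟨?_, fun h => hdis _ (Or.inr rfl) (by simpa using h)⟩
          rcases le_or_gt (m - k * W) N with h5 | h5
          · exact Or.inr (Or.inl ⟨h5, Or.inr ⟨W, hW, by omega, by omega, by omega⟩⟩)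
          · exact Or.inr (Or.inr h5)
        · rw [Multiset.eq_of_mem_replicate hu]
          exact ⟨(hag W (by omega)).2 (hT2 W hW).1,
            fun h => hdis _ (Or.inl rfl) (by simpa using h)⟩
      · rw [Multiset.sum_cons, Multiset.sum_replicate, smul_eq_mul]
        omega
  · -- `N` is critical
    rintro ⟨s, s1, s2, s3⟩
    have hle : ∀ u ∈ s, u ≤ N := by
      intro u hu
      rw [← s3]; exact Multiset.le_sum_of_mem hu
    by_cases hall : ∀ u ∈ s, u ≤ X
    · have h5 : s.sum ≤ s.card • X := Multiset.sum_le_card_nsmul s X hall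
      rw [s1, smul_eq_mul, s3] at h5
      omega
    · push Not at hall
      obtain ⟨u, hu, huX⟩ := hall
      have h4 := hle u hu
      obtain ⟨hu1, hu2⟩ := s2 u hu
      have hg : N - u ∈ Gs := by
        rcases hu1 with h | h | h
        · omega
        · exact h.2
        · omega
      obtain ⟨t, rfl⟩ := Multiset.exists_cons_of_mem hu
      rw [Multiset.sum_cons] at s3
      rw [Multiset.card_cons] at s1
      have hts : t.sum = N - u := by omega
      have hgM := hGs _ hg
      have hmem : N - u ∈ hFold k (C \ ↑S) := by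
        refine ⟨t, by omega, ?_, hts⟩
        intro v hv
        have hvle := Multiset.le_sum_of_mem hv
        have := s2 v (Multiset.mem_cons_of_mem hv)
        exact ⟨(hag v (by omega)).1 this.1, this.2⟩
      rcases hg with ⟨a, ha, hga⟩ | ⟨W, hW, g1, g2, g3⟩
      · rw [hga] at hmem
        refine (hU a ha).2.2 (hFold_mono ?_ hmem)
        intro x hx
        refine ⟨hx.1, ?_⟩
        intro h
        rw [Set.mem_singleton_iff] at h
        exact hx.2 (by rw [h]; exact_mod_cast ha)
      · exact (hT2 W hW).2 _ g1 g2 g3 (hFold_mono Set.sdiff_subset hmem)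

theorem macroStep {k r : ℕ} (hk : 0 < k) {C : Set ℕ} (hC : St k r C) (B : ℕ) (S : Finset ℕ)
    (hS : S.card = r) (hSC : ∀ a ∈ S, a ∈ C) :
    ∃ C', St k r C' ∧ Agree B C C' ∧ ∃ N, B < N ∧ N ∉ hFold (k + 1) (C' \ ↑S) := by
  obtain ⟨B0, hB0⟩ : ∃ B0, B0 = B + ∑ a ∈ S, a := ⟨_, rfl⟩
  have hSB : ∀ a ∈ S, a ≤ B0 := by
    intro a ha
    have := Finset.single_le_sum (f := fun a => a) (fun _ _ => Nat.zero_le _) ha
    omega
  obtain ⟨C1, c1, c2, U, u1, u2⟩ := forS hk S hC B0
  obtain ⟨B1, hB1⟩ : ∃ B1, B1 = B0 + ∑ a ∈ S, ((U a).sum + a) := ⟨_, rfl⟩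
  have hBle : ∀ b ∈ S, (U b).sum + b ≤ B1 := by
    intro b hb
    have := Finset.single_le_sum (f := fun b => (U b).sum + b) (fun _ _ => Nat.zero_le _) hb
    omega
  obtain ⟨C2, d1, d2, T, t1, t2⟩ := forT hk (2 * r * k) r c1 B1
  obtain ⟨C3, e1, e2, N, n1, n2⟩ := critical hk d1 B1 S hS
    (fun a ha => (d2 a ((hSB a ha).trans (by omega))).2 ((c2 a (hSB a ha)).2 (hSC a ha))) U
    (by
      intro a ha
      obtain ⟨w1, w2, w3⟩ := u1 a ha
      refine ⟨w1, ?_, d2.notMem (hBle a ha) w3⟩
      intro u hu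
      have h1 := Multiset.le_sum_of_mem hu
      have h2 := hBle a ha
      refine ⟨(d2 u (by omega)).2 (w2 u hu).1, ?_⟩
      intro h3
      have h4 := hSB u h3
      have h5 := (w2 u hu).2
      omega) u2 T t1 (fun W hW => ⟨(t2 W hW).1, (t2 W hW).2.2⟩)
  refine ⟨C3, e1, ?_, N, by omega, n2⟩
  exact (c2.mono (by omega)).trans ((d2.mono (by omega)).trans (e2.mono (by omega)))

theorem st_univ {k r : ℕ} (hk : 0 < k) : St k r Set.univ := by
  refine ⟨fun _ _ => trivial, ⟨0, fun _ _ => trivial⟩, ?_⟩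
  intro m hm
  refine rob_of_window (u0 := 0) hk ?_
  intro u _ hu
  refine ⟨trivial, ?_, trivial⟩
  calc k * u ≤ k * (2 * r) := Nat.mul_le_mul_left k (by omega)
    _ = 2 * r * k := by ring
    _ ≤ m := hm

/-- Every finite set occurs infinitely often in this enumeration. -/
def enum (n : ℕ) : Finset ℕ := Denumerable.ofNat (Finset ℕ) n.unpair.1

theorem enum_spec (S : Finset ℕ) (n : ℕ) : ∃ n', n ≤ n' ∧ enum n' = S := by
  refine ⟨Nat.pair (@Encodable.encode (Finset ℕ) Denumerable.toEncodable S) n,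
    Nat.right_le_pair _ _, ?_⟩
  simp only [enum, Nat.unpair_pair]
  exact Denumerable.ofNat_encode S

theorem step_exists {k r : ℕ} (hk : 0 < k) (n : ℕ) (p : Set ℕ × ℕ) (hp : St k r p.1) :
    ∃ q : Set ℕ × ℕ, St k r q.1 ∧ Agree p.2 p.1 q.1 ∧ p.2 < q.2 ∧
      ((enum n).card = r → (∀ a ∈ enum n, a ∈ p.1) →
        ∃ N, p.2 < N ∧ N ≤ q.2 ∧ N ∉ hFold (k + 1) (q.1 \ ↑(enum n))) := by
  by_cases h : (enum n).card = r ∧ ∀ a ∈ enum n, a ∈ p.1
  · obtain ⟨C', c1, c2, N, n1, n2⟩ := macroStep hk hp p.2 (enum n) h.1 h.2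
    exact ⟨(C', N), c1, c2, n1, fun _ _ => ⟨N, n1, le_rfl, n2⟩⟩
  · refine ⟨(p.1, p.2 + 1), hp, fun x _ => Iff.rfl, Nat.lt_succ_self _, ?_⟩
    intro h1 h2
    exact absurd ⟨h1, h2⟩ h

/-- For all `h ≥ 3` and `r ≥ 2` there is an `r`-minimal asymptotic basis of order `h`. -/
theorem result (h r : ℕ) (hh : 3 ≤ h) (_hr : 2 ≤ r) : ∃ A : Set ℕ, IsRMinimal h r A := by
  obtain ⟨k, rfl⟩ : ∃ k, h = k + 1 := ⟨h - 1, by omega⟩
  have hk : 0 < k := by omega
  choose! step st1 st2 st3 st4 using fun n p => step_exists (k := k) (r := r) hk n p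
  let seq : ℕ → Set ℕ × ℕ := fun n => Nat.rec (Set.univ, 0) (fun n p => step n p) n
  have hseq : ∀ n, seq (n + 1) = step n (seq n) := fun n => rfl
  have hSt : ∀ n, St k r (seq n).1 := by
    intro n
    induction n with
    | zero => exact st_univ hk
    | succ n ih => rw [hseq]; exact st1 n _ ih
  have hB1 : ∀ n, (seq n).2 < (seq (n + 1)).2 := fun n => by
    rw [hseq]; exact st3 n _ (hSt n)
  have hmono : StrictMono (fun n => (seq n).2) := strictMono_nat_of_lt_succ hB1
  have hBn : ∀ n, n ≤ (seq n).2 := fun n => hmono.id_le n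
  have hag : ∀ n m, n ≤ m → Agree (seq n).2 (seq n).1 (seq m).1 := by
    intro n m hnm
    induction m, hnm using Nat.le_induction with
    | base => exact fun x _ => Iff.rfl
    | succ m hnm ih =>
      refine ih.trans (Agree.mono (hmono.monotone hnm) ?_)
      rw [hseq]
      exact st2 m _ (hSt m)
  let A : Set ℕ := {x | x ∈ (seq x).1}
  have hA : ∀ n, Agree (seq n).2 (seq n).1 A := by
    intro n x hx
    have h1 := hag n (max n x) (le_max_left _ _) x hx
    have h2 := hag x (max n x) (le_max_right _ _) x (hBn x)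
    exact h2.symm.trans h1
  refine ⟨A, ?_⟩
  intro S hSA
  constructor
  · intro hbasis
    by_contra hcon
    push Not at hcon
    obtain ⟨S', hS'S, hS'⟩ := Set.exists_subset_encard_eq hcon
    have hfin : S'.Finite := Set.finite_of_encard_eq_coe hS'
    have hcard : hfin.toFinset.card = r := by
      rw [hfin.encard_eq_coe_toFinset_card] at hS'
      exact_mod_cast hS'
    obtain ⟨M, hM⟩ := hbasis.bddAbove
    obtain ⟨n, hn1, hn2⟩ := enum_spec hfin.toFinset (M + 1 + ∑ a ∈ hfin.toFinset, a)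
    have hin : ∀ a ∈ enum n, a ∈ (seq n).1 := by
      intro a ha
      rw [hn2] at ha
      have h1 : a ≤ ∑ a ∈ hfin.toFinset, a :=
        Finset.single_le_sum (f := fun a => a) (fun _ _ => Nat.zero_le _) ha
      have h2 : a ∈ A := hSA (hS'S (hfin.mem_toFinset.1 ha))
      have h3 := hBn n
      exact (hA n a (by omega)).1 h2
    obtain ⟨N, hN1, hN2, hN3⟩ := st4 n (seq n) (hSt n) (by rw [hn2]; exact hcard) hin
    rw [← hseq] at hN2 hN3
    have hN4 : N ∉ hFold (k + 1) (A \ S) := by
      intro hmem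
      apply hN3
      refine hFold_mono_below ?_ hmem
      intro x hx hx2
      refine ⟨(hA (n + 1) x (hx.trans hN2)).1 hx2.1, ?_⟩
      intro hx3
      apply hx2.2
      apply hS'S
      rw [hn2] at hx3
      simpa using hx3
    have h5 : N ≤ M := hM hN4
    have h6 := hBn n
    omega
  · intro hcard
    have hfin : S.Finite := Set.finite_of_encard_le_coe hcard.le
    have hcard' : hfin.toFinset.card < r := by
      rw [hfin.encard_eq_coe_toFinset_card] at hcard
      exact_mod_cast hcard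
    refine Set.Finite.subset (Set.finite_Iio (2 * r * k)) ?_
    intro m hm
    by_contra hlt
    rw [Set.mem_Iio, not_lt] at hlt
    apply hm
    refine hFold_mono_below ?_ ((hSt m).rob m hlt hfin.toFinset hcard')
    intro x hx hx2
    refine ⟨(hA m x (hx.trans (hBn m))).2 hx2.1, ?_⟩
    intro hx3
    apply hx2.2
    simpa using hx3

end Pool.Agent.Results.MP_f804be_nt.RMinimalBasesExist
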